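import Pool.Agent.Helper56.NL.Stm

/-! Project NL, package DEG: linearly independent combinations of the powers `p ^ g n` satisfy no
relation of small degree. -/

set_option autoImplicit false

namespace Pool.Agent.Helper41.NL

open Pool.Agent.Helper35.EM Pool.Agent.Helper56.SA Pool.Agent.Helper56.EM Module Submodule Set
open Pool.Agent.Helper56.NL (g S_DEG)

theorem g_pos (D n : ℕ) : 0 < g D n := by
  induction n with
  | zero => exact Nat.one_pos
  | succ n ih =>
    show 0 < g D n * (D + 1) ^ (n + 1)
    positivity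

theorem g_step (D n : ℕ) : g D n * (D + 1) ≤ g D (n + 1) := by
  show g D n * (D + 1) ≤ g D n * (D + 1) ^ (n + 1)
  refine Nat.mul_le_mul_left _ ?_
  calc D + 1 = (D + 1) ^ 1 := (pow_one _).symm
    _ ≤ (D + 1) ^ (n + 1) := Nat.pow_le_pow_right (by omega) (by omega)

theorem g_sum (D n : ℕ) : D * ∑ j ∈ Finset.range n, g D j < g D n := by
  induction n with
  | zero => simp [g_pos]
  | succ n ih =>
    rw [Finset.sum_range_succ, mul_add]
    have := g_step D n
    nlinarith

theorem dig_lt {D n : ℕ} {α : ℕ → ℕ} (h : ∀ j, α j ≤ D) :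
    ∑ j ∈ Finset.range n, α j * g D j < g D n := by
  refine lt_of_le_of_lt ?_ (g_sum D n)
  rw [Finset.mul_sum]
  exact Finset.sum_le_sum fun j _ => Nat.mul_le_mul_right _ (h j)

/-- uniqueness of the expansion -/
theorem dig_inj {D : ℕ} {α β : ℕ → ℕ} (hα : ∀ j, α j ≤ D) (hβ : ∀ j, β j ≤ D) (n : ℕ)
    (h : ∑ j ∈ Finset.range n, α j * g D j = ∑ j ∈ Finset.range n, β j * g D j) :
    ∀ j < n, α j = β j := by
  induction n with
  | zero => intro j hj; omega
  | succ n ih =>
    rw [Finset.sum_range_succ, Finset.sum_range_succ] at h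
    have h1 := dig_lt (n := n) hα
    have h2 := dig_lt (n := n) hβ
    have h3 : α n = β n := by
      have e1 : (∑ j ∈ Finset.range n, α j * g D j + α n * g D n) / g D n = α n := by
        rw [Nat.add_mul_div_right _ _ (g_pos D n), Nat.div_eq_of_lt h1, zero_add]
      have e2 : (∑ j ∈ Finset.range n, β j * g D j + β n * g D n) / g D n = β n := by
        rw [Nat.add_mul_div_right _ _ (g_pos D n), Nat.div_eq_of_lt h2, zero_add]
      rw [← e1, h, e2]
    rw [h3] at h
    have h4 := ih (by omega)
    intro j hj
    rcases Nat.lt_succ_iff_lt_or_eq.1 hj with h5 | h5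
    · exact h4 j h5
    · rw [h5]; exact h3

/-- the exponent -/
def ex (D : ℕ) (α : ℕ →₀ ℕ) : ℕ := α.sum fun k a => a * g D k

theorem ex_inj {D : ℕ} {α β : ℕ →₀ ℕ} (hα : (α.sum fun _ a => a) ≤ D)
    (hβ : (β.sum fun _ a => a) ≤ D) (h : ex D α = ex D β) : α = β := by
  have hle : ∀ γ : ℕ →₀ ℕ, (γ.sum fun _ a => a) ≤ D → ∀ j, γ j ≤ D := by
    intro γ hγ j
    by_cases hj : j ∈ γ.support
    · exact (Finset.single_le_sum (f := fun k => γ k) (fun _ _ => Nat.zero_le _) hj).trans hγ
    · rw [Finsupp.notMem_support_iff.1 hj]; exact Nat.zero_le _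
  obtain ⟨n, hn⟩ : ∃ n, ∀ j ∈ α.support ∪ β.support, j < n := by
    refine ⟨(α.support ∪ β.support).sup id + 1, fun j hj => ?_⟩
    exact Nat.lt_succ_of_le (Finset.le_sup (f := id) hj)
  have hs : ∀ γ : ℕ →₀ ℕ, (∀ j ∈ γ.support, j < n) →
      ex D γ = ∑ j ∈ Finset.range n, γ j * g D j := by
    intro γ hγ
    refine Finset.sum_subset (fun j hj => Finset.mem_range.2 (hγ j hj)) fun j _ hj => ?_
    show γ j * g D j = 0
    rw [Finsupp.notMem_support_iff.1 hj, zero_mul]
  rw [hs α fun j hj => hn j (Finset.mem_union_left _ hj),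
    hs β fun j hj => hn j (Finset.mem_union_right _ hj)] at h
  have h1 := dig_inj (hle α hα) (hle β hβ) n h
  ext j
  by_cases hj : j < n
  · exact h1 j hj
  · have ha : j ∉ α.support := fun h' => hj (hn j (Finset.mem_union_left _ h'))
    have hb : j ∉ β.support := fun h' => hj (hn j (Finset.mem_union_right _ h'))
    rw [Finsupp.notMem_support_iff.1 ha, Finsupp.notMem_support_iff.1 hb]

/-- the linear form with the coefficients `q` -/
noncomputable def lf {k : Type*} [Field k] (q : ℕ →₀ k) : MvPolynomial ℕ k :=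
  q.sum fun i c => MvPolynomial.C c * MvPolynomial.X i

theorem lf_deg {k : Type*} [Field k] (q : ℕ →₀ k) : (lf q).totalDegree ≤ 1 := by
  refine (MvPolynomial.totalDegree_finset_sum _ _).trans (Finset.sup_le fun i _ => ?_)
  refine (MvPolynomial.totalDegree_mul _ _).trans ?_
  rw [MvPolynomial.totalDegree_C, MvPolynomial.totalDegree_X]

theorem aeval_deg {k : Type*} [Field k] {n : ℕ} (L : Fin n → MvPolynomial ℕ k)
    (hL : ∀ i, (L i).totalDegree ≤ 1) (f : MvPolynomial (Fin n) k) :
    (MvPolynomial.aeval L f).totalDegree ≤ f.totalDegree := by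
  rw [MvPolynomial.aeval_def, MvPolynomial.eval₂_eq]
  refine (MvPolynomial.totalDegree_finset_sum _ _).trans (Finset.sup_le fun α hα => ?_)
  refine (MvPolynomial.totalDegree_mul _ _).trans ?_
  have e1 : (algebraMap k (MvPolynomial ℕ k) (MvPolynomial.coeff α f)).totalDegree = 0 :=
    MvPolynomial.totalDegree_C _
  rw [e1, zero_add]
  refine (MvPolynomial.totalDegree_finset_prod _ _).trans ?_
  refine le_trans ?_ (MvPolynomial.le_totalDegree hα)
  refine Finset.sum_le_sum fun i _ => ?_
  refine (MvPolynomial.totalDegree_pow _ _).trans ?_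
  calc α i * (L i).totalDegree ≤ α i * 1 := Nat.mul_le_mul_left _ (hL i)
    _ = α i := mul_one _

theorem deg : S_DEG := by
  intro D p hp n u hu hli f hf hfD h0
  classical
  -- transcendence
  have hpt : ¬ IsAlgebraic kk p := fun h => hp (kk_mem.1 (cl_idem h))
  -- coefficients
  have hq : ∀ i, ∃ q : ℕ →₀ kk, (q.sum fun k c => c • (p ^ g D k)) = u i := fun i =>
    Finsupp.mem_span_range_iff_exists_finsupp.1 (hu i)
  choose q hq using hq
  -- the linear map
  let ev : (ℕ →₀ kk) →ₗ[kk] ℂ := Finsupp.linearCombination kk fun k => p ^ g D k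
  have hev : ∀ i, ev (q i) = u i := hq
  have hqli : LinearIndependent kk q := by
    refine LinearIndependent.of_comp ev ?_
    have : (ev ∘ q) = u := funext hev
    rw [this]
    exact hli
  let T : (Fin n → kk) →ₗ[kk] (ℕ →₀ kk) := Fintype.linearCombination kk q
  have hT : LinearMap.ker T = ⊥ := by
    rw [LinearMap.ker_eq_bot]
    exact linearIndependent_iff_injective_fintypeLinearCombination.1 hqli
  obtain ⟨S, hS⟩ := T.exists_leftInverse_of_injective hT
  have hSq : ∀ i, S (q i) = Pi.single i 1 := by
    intro i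
    have h1 : T (Pi.single i 1) = q i := by
      simp [T]
    rw [← h1, ← LinearMap.comp_apply, hS, LinearMap.id_apply]
  -- the linear forms
  let L : Fin n → MvPolynomial ℕ kk := fun i => lf (q i)
  let F : MvPolynomial ℕ kk := MvPolynomial.aeval L f
  have hFD : F.totalDegree ≤ D := (aeval_deg L (fun i => lf_deg (q i)) f).trans hfD
  -- back substitution
  let ρ : MvPolynomial ℕ kk →ₐ[kk] MvPolynomial (Fin n) kk :=
    MvPolynomial.aeval fun k => ∑ j, MvPolynomial.C (S (Finsupp.single k 1) j) * MvPolynomial.X j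
  have hρL : ∀ i, ρ (L i) = MvPolynomial.X i := by
    intro i
    have h1 : ∀ r : ℕ →₀ kk, ρ (lf r) = ∑ j, MvPolynomial.C (S r j) * MvPolynomial.X j := by
      intro r
      induction r using Finsupp.induction_linear with
      | zero => simp [lf]
      | add a b ha hb =>
        have e1 : lf (a + b) = lf a + lf b :=
          Finsupp.sum_add_index' (fun _ => by simp) (fun _ _ _ => by
            rw [MvPolynomial.C_add, add_mul])
        rw [e1, map_add, ha, hb, map_add, ← Finset.sum_add_distrib]
        refine Finset.sum_congr rfl fun j _ => ?_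
        rw [Pi.add_apply, MvPolynomial.C_add, add_mul]
      | single k c =>
        have e1 : lf (Finsupp.single k c) = MvPolynomial.C c * MvPolynomial.X k :=
          Finsupp.sum_single_index (by simp)
        have e2 : Finsupp.single k c = c • Finsupp.single k (1 : kk) := by simp
        rw [e1, e2, map_smul, map_mul, MvPolynomial.aeval_X, Finset.mul_sum]
        refine Finset.sum_congr rfl fun j _ => ?_
        rw [Pi.smul_apply, smul_eq_mul, MvPolynomial.C_mul, mul_assoc]
        congr 1
        exact MvPolynomial.aeval_C _ _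
    rw [h1, hSq, Finset.sum_eq_single i]
    · simp
    · intro j _ hj
      rw [Pi.single_eq_of_ne hj, MvPolynomial.C_0, zero_mul]
    · simp
  have hF0 : F ≠ 0 := by
    intro h
    apply hf
    have h1 : ρ F = f := by
      show ρ (MvPolynomial.aeval L f) = f
      rw [MvPolynomial.comp_aeval_apply]
      have h2 : (fun i => ρ (L i)) = MvPolynomial.X := funext hρL
      rw [h2]
      exact MvPolynomial.aeval_X_left_apply f
    rw [← h1, h, map_zero]
  -- the value
  have hval : MvPolynomial.aeval (fun k => p ^ g D k) F = MvPolynomial.aeval u f := by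
    show MvPolynomial.aeval (fun k => p ^ g D k) (MvPolynomial.aeval L f) = _
    rw [MvPolynomial.comp_aeval_apply]
    congr 1
    congr 1
    funext i
    rw [← hq i]
    show MvPolynomial.aeval (fun k => p ^ g D k) (lf (q i)) = _
    unfold lf
    rw [map_finsuppSum]
    refine Finsupp.sum_congr fun k _ => ?_
    rw [map_mul, MvPolynomial.aeval_C, MvPolynomial.aeval_X, Algebra.smul_def]
  rw [h0] at hval
  -- the polynomial in one variable
  let P : Polynomial kk := ∑ α ∈ F.support, Polynomial.monomial (ex D α) (MvPolynomial.coeff α F)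
  have hPp : Polynomial.aeval p P = 0 := by
    rw [← hval, MvPolynomial.aeval_def, MvPolynomial.eval₂_eq]
    show Polynomial.aeval p (∑ α ∈ F.support, _) = _
    rw [map_sum]
    refine Finset.sum_congr rfl fun α _ => ?_
    rw [Polynomial.aeval_monomial]
    congr 1
    unfold ex
    rw [Finsupp.sum, ← Finset.prod_pow_eq_pow_sum]
    refine Finset.prod_congr rfl fun k _ => ?_
    rw [← pow_mul, mul_comm]
  have hP0 : P ≠ 0 := by
    obtain ⟨α0, hα0⟩ := Finset.nonempty_iff_ne_empty.2
      (fun h => hF0 (MvPolynomial.support_eq_empty.1 h))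
    intro h
    have h1 := congrArg (fun r => Polynomial.coeff r (ex D α0)) h
    simp only [Polynomial.coeff_zero] at h1
    have h2 : Polynomial.coeff P (ex D α0) = MvPolynomial.coeff α0 F := by
      show Polynomial.coeff (∑ α ∈ F.support, _) (ex D α0) = _
      rw [Polynomial.finset_sum_coeff, Finset.sum_eq_single α0]
      · rw [Polynomial.coeff_monomial, if_pos rfl]
      · intro α hα hne
        rw [Polynomial.coeff_monomial, if_neg]
        intro h3
        exact hne (ex_inj ((MvPolynomial.le_totalDegree hα).trans hFD)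
          ((MvPolynomial.le_totalDegree hα0).trans hFD) h3)
      · intro h3
        exact absurd hα0 h3
    rw [h2] at h1
    exact MvPolynomial.mem_support_iff.1 hα0 h1
  exact hpt ⟨P, hP0, hPp⟩

end Pool.Agent.Helper41.NL
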